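import Pool.Agent.L7h32.PI.Stm
import Pool.Agent.L7h32.AA.Asm2

/-!
# Project PI: the immersion estimate
-/

set_option autoImplicit false
set_option linter.unusedSectionVars false

open Set Filter Topology Metric MeasureTheory
open scoped ContDiff

noncomputable section

namespace Pool.Agent.L7h32.PI

open Pool.Agent.L7h32.AA

/-- `φ` is `ε`-nearly affine at the scale `r` with distortion at most `H` -/
def NAff {E : Type} [NormedAddCommGroup E] [NormedSpace ℝ E] (K : Set E) (ε H r : ℝ)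
    (φ : E → E) : Prop :=
  ∀ x ∈ K, ∃ (l : ℝ) (T : E →L[ℝ] E) (b : E), 0 < l ∧ (∀ v, l * ‖v‖ ≤ ‖T v‖) ∧
    (∀ v, ‖T v‖ ≤ H * l * ‖v‖) ∧ ∀ y ∈ K, ‖y - x‖ ≤ r → ‖φ y - (T y + b)‖ ≤ ε * l * r

section est

variable {E : Type} [NormedAddCommGroup E] [NormedSpace ℝ E] [FiniteDimensional ℝ E]
  [MeasurableSpace E] [BorelSpace E] {μ : Measure E} [μ.IsAddHaarMeasure]
  {K U V : Set E} {N : E → E} {t₁ C : ℝ}

/-- the conclusion of `S_NU` for one `κ` -/
def NU1 (K U : Set E) (N : E → E) (κ w : ℝ) : Prop :=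
  ∀ p ∈ K, ∀ z z' : E, ‖z - p‖ < w → ‖z' - p‖ < w →
      z ∈ U ∧ z' ∈ U ∧ ‖(N z - N z') - fderiv ℝ N p (z - z')‖ ≤ κ * ‖z - z'‖

/-- the mollification stays close to `φ x` -/
theorem moll_near (hR : Ret K U N) (hp : Pi0 K U N t₁ C V) {η : E → ℝ} (h : Ker μ η)
    {φ : E → E} (hφ : ContinuousOn (fun x => φ (N x)) U) {r τ w : ℝ} (hτ : 0 < τ) (hτ1 : τ < t₁)
    (hr : C * τ ≤ r) (hosc : ∀ x ∈ K, ∀ y ∈ K, ‖x - y‖ ≤ r → ‖φ x - φ y‖ ≤ w) {x y : E}
    (hx : x ∈ K) (hy : y ∈ K) (hxy : C * τ + ‖x - y‖ ≤ r) :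
    ‖moll μ η (fun z => φ (N z)) τ y - φ x‖ ≤ w := by
  have hττ : |τ| < t₁ := by rwa [abs_of_pos hτ]
  refine moll_close h hR.opn hφ y τ (hp.mem (hp.sub hy) hττ) _ fun v hv => ?_
  have hU := hp.mem (hp.sub hy) hττ v hv
  have hz : ‖τ • v‖ ≤ τ := by
    rw [norm_smul, Real.norm_eq_abs, abs_of_pos hτ]
    nlinarith
  refine hosc _ (hR.maps _ hU) x hx ?_
  have h3 := hp.near y hy (τ • v) (by linarith)
  have hC := hp.one
  have h4 : C * ‖τ • v‖ ≤ C * τ := by gcongr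
  calc ‖N (y + τ • v) - x‖ = ‖(N (y + τ • v) - y) + (y - x)‖ := by congr 1; abel
    _ ≤ ‖N (y + τ • v) - y‖ + ‖y - x‖ := norm_add_le _ _
    _ ≤ r := by
      rw [norm_sub_rev y x]
      linarith

/-- the immersion estimate -/
theorem imm (hR : Ret K U N) (hp : Pi0 K U N t₁ C V) {η : E → ℝ} (h : Ker μ η)
    {Λ ε H κ w r τ : ℝ} (hΛ2 : 2 ≤ Λ)
    (hΛ : ∀ v : E, ∫ y, |η y - η (y + v)| ∂μ ≤ Λ * ‖v‖ ∧ ∫ y, |η y - η (y + v)| ∂μ ≤ 2)
    (hε0 : 0 ≤ ε) (hε : ε * ((C + 1) * Λ) ≤ 1 / 8) (hH : 1 ≤ H)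
    (hNU : NU1 K U N κ w) (hκ0 : 0 ≤ κ) (hκ1 : κ * ((H + 1) * (C + 1) * Λ) ≤ 1 / 16)
    (hκ2 : κ * (32 * H) ≤ 1)
    {φ : E → E} (hφ : ContinuousOn (fun x => φ (N x)) U) (hφK : MapsTo φ K K)
    (hA : NAff K ε H r φ) (hτ : 0 < τ) (hτ1 : τ < t₁) (hr : r = (C + 1) * τ) (hw : 0 < w)
    (hosc : ∀ x ∈ K, ∀ y ∈ K, ‖x - y‖ ≤ r → ‖φ x - φ y‖ ≤ w / 2) {x : E} (hx : x ∈ K) :
    ∃ l : ℝ, 0 < l ∧ ∀ y ∈ K, ‖y - x‖ ≤ τ → l * ‖x - y‖ ≤
      ‖N (moll μ η (fun z => φ (N z)) τ x) - N (moll μ η (fun z => φ (N z)) τ y)‖ := by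
  have hC := hp.one
  have hττ : |τ| < t₁ := by rwa [abs_of_pos hτ]
  obtain ⟨l, T, b, hl, hT, hTH, hb⟩ := hA x hx
  refine ⟨l / 4, by positivity, fun y hy hyx => ?_⟩
  have hd : ‖x - y‖ ≤ τ := by rwa [norm_sub_rev]
  have hd0 : 0 ≤ ‖x - y‖ := norm_nonneg _
  have hr0 : 0 < r := by rw [hr]; positivity
  have hrr : C * τ + ‖x - y‖ ≤ r := by rw [hr]; linarith
  have hrC : C * τ ≤ r := by rw [hr]; linarith
  have hε1 : 2 * ε ≤ 1 := by
    have : 4 ≤ (C + 1) * Λ := by nlinarith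
    nlinarith
  set A := moll μ η (fun z => φ (N z)) τ x with hAd
  set B := moll μ η (fun z => φ (N z)) τ y with hBd
  set wv := moll μ η N τ x - moll μ η N τ y with hwv
  -- comparison with the affine map
  have k1 : ‖(A - B) - T wv‖ ≤ l * ‖x - y‖ / 8 := by
    refine (cmp hR hp h hΛ hφ hx hy hτ hτ1 hrr T b (β := ε * l * r)
      (fun z hz hz2 => hb _ (hR.maps z hz) hz2)).1.trans ?_
    calc ε * l * r * (Λ * (‖x - y‖ / τ)) = (ε * ((C + 1) * Λ)) * (l * ‖x - y‖) := by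
          rw [hr]
          field_simp
      _ ≤ 1 / 8 * (l * ‖x - y‖) := by gcongr
      _ = _ := by ring
  have k2 : ‖x - y‖ / 2 ≤ ‖wv‖ := moll_N_low hR hp h hx hy hττ
  have k3 : ‖wv‖ ≤ 3 / 2 * ‖x - y‖ := by
    have q1 := moll_N hR hp h hx hy hττ (μ := μ)
    have q2 := norm_sub_norm_le (moll μ η N τ x - moll μ η N τ y) (x - y)
    rw [← hwv] at q1 q2
    linarith
  have k4 : l * (‖x - y‖ / 2) ≤ ‖T wv‖ := by
    have q := hT wv
    have : l * (‖x - y‖ / 2) ≤ l * ‖wv‖ := by gcongr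
    linarith
  have k5 : ‖T wv‖ ≤ H * l * (3 / 2 * ‖x - y‖) := (hTH wv).trans (by gcongr)
  have k6 : 3 / 8 * (l * ‖x - y‖) ≤ ‖A - B‖ := by
    have q := norm_sub_norm_le (T wv) (A - B)
    rw [norm_sub_rev (T wv)] at q
    linarith
  have k7 : ‖A - B‖ ≤ 2 * H * (l * ‖x - y‖) := by
    have q := norm_sub_norm_le (A - B) (T wv)
    have q2 : 0 ≤ l * ‖x - y‖ := by positivity
    nlinarith
  -- the values of φ on the ball
  have k8 : ∀ z ∈ K, ‖z - x‖ ≤ r → ‖φ z - φ x‖ ≤ (H + 1) * (l * r) := by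
    intro z hz hzx
    have q1 := hb z hz hzx
    have q2 := hb x hx (by rw [sub_self, norm_zero]; exact hr0.le)
    have q3 : ‖T (z - x)‖ ≤ H * l * r := (hTH _).trans (by gcongr)
    have e : φ z - φ x = T (z - x) + (φ z - (T z + b)) - (φ x - (T x + b)) := by
      rw [map_sub]
      abel
    rw [e]
    have n1 := norm_sub_le (T (z - x) + (φ z - (T z + b))) (φ x - (T x + b))
    have n2 := norm_add_le (T (z - x)) (φ z - (T z + b))
    have q4 : 2 * (ε * l * r) ≤ l * r := by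
      calc 2 * (ε * l * r) = (2 * ε) * (l * r) := by ring
        _ ≤ 1 * (l * r) := by gcongr
        _ = _ := one_mul _
    nlinarith
  set p := φ x with hpd
  have hpK : p ∈ K := hφK hx
  set P : E →L[ℝ] E := fderiv ℝ N p with hP
  set Q : E →L[ℝ] E := ContinuousLinearMap.id ℝ E - P with hQ
  -- the normal component
  have k9 : ‖Q (A - B)‖ ≤ l * ‖x - y‖ / 16 := by
    set W : E → E := fun z => Q (φ (N z) - p) with hW
    have hWc : ContinuousOn W U := Q.continuous.comp_continuousOn (hφ.sub continuousOn_const)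
    have hWb : ∀ z ∈ U, ‖N z - x‖ ≤ r → ‖W z‖ ≤ κ * ((H + 1) * (l * r)) := by
      intro z hz hzx
      have hNz := hR.maps z hz
      have q1 := hosc _ hNz x hx hzx
      have q2 := hNU p hpK (φ (N z)) p (by linarith) (by rw [sub_self, norm_zero]; exact hw)
      have q3 := q2.2.2
      rw [hR.fix _ (hφK hNz), hR.fix p hpK] at q3
      have q4 := k8 _ hNz hzx
      change ‖(ContinuousLinearMap.id ℝ E - P) (φ (N z) - p)‖ ≤ _
      calc _ ≤ κ * ‖φ (N z) - p‖ := q3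
        _ ≤ _ := by gcongr
    have e1 : ∀ a ∈ K, moll μ η W τ a = Q (moll μ η (fun z => φ (N z)) τ a) - Q p := by
      intro a ha
      have ma := hp.mem (hp.sub ha) hττ
      have i1 := int_moll h hR.opn hφ a τ ma
      have i2 : Integrable (fun v => η v • Q (φ (N (a + τ • v)))) μ := by
        have := Q.integrable_comp i1
        simpa using this
      have i3 : Integrable (fun v => η v • Q p) μ := h.integrable.smul_const _
      have e2 : Q (moll μ η (fun z => φ (N z)) τ a) = ∫ v, η v • Q (φ (N (a + τ • v))) ∂μ := by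
        unfold moll
        rw [← Q.integral_comp_comm i1]
        simp
      have e3 : Q p = ∫ v, η v • Q p ∂μ := by rw [integral_smul_const, h.mass, one_smul]
      rw [e2]
      conv_rhs => rw [e3]
      rw [← integral_sub i2 i3]
      unfold moll
      refine integral_congr_ae (Eventually.of_forall fun v => ?_)
      simp only [hW, map_sub, smul_sub]
    have mx := hp.mem (hp.sub hx) hττ
    have my := hp.mem (hp.sub hy) hττ
    have key := (moll_diff h hΛ hR.opn hWc x y (β := κ * ((H + 1) * (l * r))) hτ mx my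
      (fun v hv => hWb _ (mx v hv) ?_) (fun v hv => hWb _ (my v hv) ?_)).1
    · rw [e1 x hx, e1 y hy, sub_sub_sub_cancel_right, ← map_sub] at key
      refine key.trans ?_
      calc κ * ((H + 1) * (l * r)) * (Λ * (‖x - y‖ / τ)) =
            (κ * ((H + 1) * (C + 1) * Λ)) * (l * ‖x - y‖) := by
            rw [hr]
            field_simp
        _ ≤ 1 / 16 * (l * ‖x - y‖) := by gcongr
        _ = _ := by ring
    · have hz : ‖τ • v‖ ≤ τ := by
        rw [norm_smul, Real.norm_eq_abs, abs_of_pos hτ]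
        nlinarith
      have h3 := hp.near x hx (τ • v) (by linarith)
      have h4 : C * ‖τ • v‖ ≤ C * τ := by gcongr
      linarith
    · have hz : ‖τ • v‖ ≤ τ := by
        rw [norm_smul, Real.norm_eq_abs, abs_of_pos hτ]
        nlinarith
      have h3 := hp.near y hy (τ • v) (by linarith)
      have h4 : C * ‖τ • v‖ ≤ C * τ := by gcongr
      calc ‖N (y + τ • v) - x‖ = ‖(N (y + τ • v) - y) + (y - x)‖ := by congr 1; abel
        _ ≤ ‖N (y + τ • v) - y‖ + ‖y - x‖ := norm_add_le _ _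
        _ ≤ r := by
          rw [norm_sub_rev y x]
          linarith
  -- conclusion
  have m1 := moll_near hR hp h hφ hτ hτ1 hrC hosc hx hx (by
    rw [sub_self, norm_zero, add_zero]; exact hrC)
  have m2 := moll_near hR hp h hφ hτ hτ1 hrC hosc hx hy hrr
  have q := (hNU p hpK A B (by linarith) (by linarith)).2.2
  have q1 : κ * ‖A - B‖ ≤ l * ‖x - y‖ / 16 := by
    calc κ * ‖A - B‖ ≤ κ * (2 * H * (l * ‖x - y‖)) := by gcongr
      _ = (κ * (32 * H)) * (l * ‖x - y‖) / 16 := by ring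
      _ ≤ 1 * (l * ‖x - y‖) / 16 := by gcongr
      _ = _ := by ring
  have e5 : A - B = Q (A - B) + P (A - B) := by
    simp only [hQ, _root_.sub_apply, ContinuousLinearMap.id_apply]
    abel
  have n1 : ‖A - B‖ ≤ ‖Q (A - B)‖ + ‖P (A - B)‖ := by
    conv_lhs => rw [e5]
    exact norm_add_le _ _
  have n2 := norm_sub_norm_le (P (A - B)) (N A - N B)
  rw [norm_sub_rev (P (A - B))] at n2
  have : l / 4 * ‖x - y‖ = 3 / 8 * (l * ‖x - y‖) - l * ‖x - y‖ / 16 - l * ‖x - y‖ / 16 := by ring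
  rw [this]
  linarith

end est

end Pool.Agent.L7h32.PI
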