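import Pool.Agent.L7h32.AA.Stm

/-!
# Project PI: paths of nearly affine homeomorphisms of closed manifolds (CP²), statements

THEOREM (target MP_28b04d_gt). Let `K` be a closed connected submanifold of a Euclidean space (compact,
connected, with a smooth retraction `N` of a neighbourhood `U`), for example `CP²` = rank one projections.
There is `ε > 0` such that: if `f_s`, `0 ≤ s ≤ 1`, is a path (only continuous in `(s, x)`) of
homeomorphisms of `K`, and if for some `H` there are arbitrarily small `r` such that every `f_s` is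
`ε`-nearly affine at the scale `r` (on every ball of radius `r` within `ε l r` of an affine map `T`,
`l |v| ≤ |T v| ≤ H l |v|`), and `f_0`, `f_1` are diffeomorphisms, then they are smoothly isotopic.

PROOF. `a_s = moll (f_s ∘ N) τ`, `g_s = N ∘ a_s : K → K` for one small scale `τ`, `(C + 1) τ = r`: `g_s` is an
immersion (comparison with the affine map; the normal component of `a_s x - a_s x'` is small because
`f_s` has values in `K`). `g_0` is `C¹`-close to `f_0`, so injective. The set of the `s` with `g_s` injective is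
open (S_LOW, stability) and closed (S_SURJ). Straight segments between `a_s` and `a_s'` for close `s, s'`,
composed with `N`, give smooth isotopies.

This file: the independent parts. The assembly is in preparation (helper32).
-/

set_option autoImplicit false

open Set Filter Topology Metric MeasureTheory
open scoped ContDiff

noncomputable section

namespace Pool.Agent.L7h32.PI

open Pool.Agent.L7h32.AA

/-- smooth isotopies of `K`: a smooth family `Γ t`, `t ∈ ℝ`, of smooth embeddings of `K` into itself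
(diffeomorphisms of `K` if `K` is connected) -/
def Iso {E : Type} [NormedAddCommGroup E] [NormedSpace ℝ E] (K U : Set E) (N : E → E)
    (f g : E → E) : Prop :=
  ∃ Γ : ℝ → E → E, ContDiffOn ℝ ∞ (fun p : ℝ × E => Γ p.1 (N p.2)) (univ ×ˢ U) ∧
    (∀ t, Emb K U N (Γ t) ∧ MapsTo (Γ t) K K) ∧ (∀ x ∈ K, Γ 0 x = f x) ∧ ∀ x ∈ K, Γ 1 x = g x

/-- S_NU: `N` is uniformly strictly differentiable at the points of `K`; and its derivative there is
idempotent. (Continuity of the derivative on a compact neighbourhood, mean value inequality on balls;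
`N ∘ N = N` on `U ∩ N⁻¹ U`.) -/
def S_NU : Prop :=
  ∀ (E : Type) [NormedAddCommGroup E] [NormedSpace ℝ E] [FiniteDimensional ℝ E]
    (K U : Set E) (N : E → E), Ret K U N →
    (∀ κ : ℝ, 0 < κ → ∃ w : ℝ, 0 < w ∧ ∀ p ∈ K, ∀ z z' : E, ‖z - p‖ < w → ‖z' - p‖ < w →
      z ∈ U ∧ z' ∈ U ∧ ‖(N z - N z') - fderiv ℝ N p (z - z')‖ ≤ κ * ‖z - z'‖) ∧
    ∀ p ∈ K, ∀ v, fderiv ℝ N p (fderiv ℝ N p v) = fderiv ℝ N p v

/-- S_RK: the dimension of the tangent spaces is constant (trace of the idempotent derivative is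
continuous and integer valued). -/
def S_RK : Prop :=
  ∀ (E : Type) [NormedAddCommGroup E] [NormedSpace ℝ E] [FiniteDimensional ℝ E]
    (K U : Set E) (N : E → E), Ret K U N → IsPreconnected K → ∀ p ∈ K, ∀ q ∈ K,
    Module.finrank ℝ (LinearMap.range (fderiv ℝ N p).toLinearMap) =
      Module.finrank ℝ (LinearMap.range (fderiv ℝ N q).toLinearMap)

/-- S_COMP: composition with a smooth map is continuous in the Lipschitz norm. Proof: a compact
neighbourhood of `a(K)` in `W`, uniform strict differentiability of `Ψ` there (`κ`); near pairs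
`‖x - y‖ ≤ w'`: the difference is `DΨ(a x)((a' x - a' y) - (a x - a y))` up to
`κ (‖a' x - a' y‖ + ‖a x - a y‖)`; far pairs: `2 sup ‖Ψ a' - Ψ a‖`. -/
def S_COMP : Prop :=
  ∀ (E F G : Type) [NormedAddCommGroup E] [NormedSpace ℝ E] [FiniteDimensional ℝ E]
    [NormedAddCommGroup F] [NormedSpace ℝ F] [FiniteDimensional ℝ F]
    [NormedAddCommGroup G] [NormedSpace ℝ G] [FiniteDimensional ℝ G]
    (K : Set E) (W : Set F) (a : E → F) (L : ℝ) (Ψ : F → G), IsCompact K → IsOpen W →
    ContDiffOn ℝ ∞ Ψ W → (∀ x ∈ K, a x ∈ W) → (∀ x ∈ K, ∀ y ∈ K, ‖a x - a y‖ ≤ L * ‖x - y‖) →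
    ∀ δ' : ℝ, 0 < δ' → ∃ δ : ℝ, 0 < δ ∧ ∀ a' : E → F, LipSm K δ (fun x => a' x - a x) →
      (∀ x ∈ K, a' x ∈ W) ∧ LipSm K δ' (fun x => Ψ (a' x) - Ψ (a x))

/-- S_SURJ: stable local surjectivity of immersions `K → K` (equal dimensions). Proof: let
`A₀ : ker P_x → ker P_{g x}` be a linear isomorphism (`P_x = DN(x)` idempotent, equal ranks),
`A = A₀ ∘ (1 - P_x)`, `Ĝ_h(z) = h(N z) + A (z - N z)` on `U`. `DĜ_g(x) v = D(g∘N)(x) v + A v` is injective: if it
is zero apply `P_{g x}` (`P_{gx} D(g∘N)(x) = D(g∘N)(x)` as `N ∘ g ∘ N = g ∘ N`) to get `D(g∘N)(x) v = 0`,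
`A v = 0`, `v = P_x v`, and `v = 0` as in S_EXT / S_LOW (`Pool.Agent.L7h34.AA.psi_inj`,
`Pool.Agent.L7h26.AA.inj_deriv`). So `Ĝ_h` approximates an invertible linear map on a small ball about `x`
for all `h` close to `g` (`ApproximatesLinearOn`, `surjOn_closedBall_of_nonlinearRightInverse`): there is `z`,
`‖z - x‖ < ρ`, `Ĝ_h(z) = y`. `z ∈ K`: `y - h(N z) = A (z - N z) =: u` is in `ker P_{g x}` and is the difference of
two points of `K` near `g x`, so `‖u‖ = ‖(1 - P_{gx}) u‖ ≤ κ ‖u‖`, `u = 0`; so `(1 - P_x)(z - N z) = 0`; with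
`‖P_x (z - N z)‖ ≤ κ' ‖z - N z‖` (`N z - N (N z) = 0`) also `z = N z ∈ K`. -/
def S_SURJ : Prop :=
  ∀ (E : Type) [NormedAddCommGroup E] [NormedSpace ℝ E] [FiniteDimensional ℝ E]
    (K U : Set E) (N : E → E) (g : E → E), Ret K U N → IsPreconnected K →
    ContDiffOn ℝ ∞ (fun x => g (N x)) U → MapsTo g K K → ∀ x ∈ K,
    (∃ c : ℝ, 0 < c ∧ ∃ ρ : ℝ, 0 < ρ ∧ ∀ y ∈ K, ‖y - x‖ < ρ → c * ‖x - y‖ ≤ ‖g x - g y‖) →
    ∀ ρ : ℝ, 0 < ρ → ∃ ρ' : ℝ, 0 < ρ' ∧ ∃ δ : ℝ, 0 < δ ∧ ∀ h : E → E,
      ContDiffOn ℝ ∞ (fun x => h (N x)) U → MapsTo h K K → LipSm K δ (fun x => h x - g x) →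
      ∀ y ∈ K, ‖y - g x‖ < ρ' → ∃ z ∈ K, ‖z - x‖ < ρ ∧ h z = y

/-- S_TRANS: smooth isotopy is transitive and symmetric: `Γ(t) = Γ₁(β(2 t))` for `t ≤ 1/2`,
`Γ₂(β(2 t - 1))` for `t ≥ 1/2`, `β = 0` for `t ≤ 1/3`, `β = 1` for `t ≥ 2/3` smooth
(`Real.smoothTransition (3 t - 1)`). -/
def S_TRANS : Prop :=
  ∀ (E : Type) [NormedAddCommGroup E] [NormedSpace ℝ E] (K U : Set E) (N : E → E) (f g h : E → E),
    Ret K U N → (Iso K U N f g → Iso K U N g h → Iso K U N f h) ∧ (Iso K U N f g → Iso K U N g f)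

/-- `3 × 3` matrices -/
abbrev M3 : Type := Fin 3 → Fin 3 → ℂ

/-- `CP²` as in the frozen statement S12917 -/
def CP2 : Set M3 := {P : Fin 3 → Fin 3 → ℂ |
        (∀ i j, P j i = star (P i j)) ∧
        (∀ i j, ∑ k, P i k * P k j = P i j) ∧
        ∑ i, P i i = 1}

/-- S_CPR: `CP²` is a smooth retract of a neighbourhood. Proof: `Q ↦ Q_h = (Q + Q^*) / 2`, `λ(Q)` = the root
near `1` of `det (λ - Q_h)` (real polynomial, the derivative at `λ = 1`, `Q ∈ CP²`, is `1`; implicit function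
theorem, uniqueness on a small interval by monotonicity, compactness), `A = adj (λ(Q) - Q_h)`, rank one since
the determinant is zero (`adj (adj B) = det B • B = 0` for `3 × 3` matrices, so `A² = tr(A) A` by the formula
`adj A = A² - tr(A) A + tr(adj A)`), `N(Q) = A / tr A`; for `Q ∈ CP²`: `λ = 1`, `adj (1 - Q) = Q`. Any other
smooth retraction is as good, e.g. by the inverse function theorem. -/
def S_CPR : Prop := ∃ (U : Set M3) (N : M3 → M3), Ret CP2 U N

/-- S_CPC: `CP²` is connected: image of the unit sphere of `ℂ³` (connected) under `v ↦ v v^*`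
(`isPreconnected_sphere`; a rank one projection is `v v^*`: take a nonzero column). -/
def S_CPC : Prop := IsPreconnected CP2 ∧ CP2.Nonempty

end Pool.Agent.L7h32.PI
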