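import Pool.Agent.L7h32.PI.Est
import Pool.Agent.L7h34.AA.Mol

/-!
# Project PI: assembly
-/

set_option autoImplicit false
set_option linter.unusedSectionVars false
set_option linter.unusedVariables false

open Set Filter Topology Metric MeasureTheory
open scoped ContDiff

noncomputable section

namespace Pool.Agent.L7h32.PI

open Pool.Agent.L7h32.AA

theorem LipSm.congr {E F : Type} [NormedAddCommGroup E] [NormedAddCommGroup F]
    {K : Set E} {δ : ℝ} {h k : E → F} (hh : LipSm K δ h) (e : ∀ x ∈ K, h x = k x) : LipSm K δ k := by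
  refine ⟨fun x hx => ?_, fun x hx y hy => ?_⟩
  · rw [← e x hx]; exact hh.1 x hx
  · rw [← e x hx, ← e y hy]; exact hh.2 x hx y hy

theorem LipSm.mono {E F : Type} [NormedAddCommGroup E] [NormedAddCommGroup F]
    {K : Set E} {δ δ' : ℝ} {h : E → F} (hh : LipSm K δ h) (hδ : δ ≤ δ') : LipSm K δ' h :=
  ⟨fun x hx => (hh.1 x hx).trans hδ, fun x hx y hy => (hh.2 x hx y hy).trans (by gcongr)⟩

section gen

variable {E : Type} [NormedAddCommGroup E] [NormedSpace ℝ E] [FiniteDimensional ℝ E]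
  {K U V : Set E} {N : E → E}

/-- smooth maps are Lipschitz on compact sets -/
theorem lip_of_smooth (hCt : S_CTS) {F : Type} [NormedAddCommGroup F] [NormedSpace ℝ F]
    [FiniteDimensional ℝ F] (hK : IsCompact K) (hV : IsOpen V) (hKV : K ⊆ V) {a : E → F}
    (ha : ContDiffOn ℝ ∞ a V) : ∃ L : ℝ, 0 ≤ L ∧ ∀ x ∈ K, ∀ y ∈ K, ‖a x - a y‖ ≤ L * ‖x - y‖ := by
  have hsm : ContDiffOn ℝ ∞ (fun p : ℝ × E => p.1 • a p.2) ((univ : Set ℝ) ×ˢ V) := by
    have h1 : ContDiffOn ℝ ∞ (fun p : ℝ × E => a p.2) ((univ : Set ℝ) ×ˢ V) :=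
      ha.comp contDiff_snd.contDiffOn fun p hp => hp.2
    exact contDiff_fst.contDiffOn.smul h1
  obtain ⟨τ, hτ, h⟩ := hCt E F K V univ _ hK hV hKV isOpen_univ hsm 0 (mem_univ _) 1 one_pos
  have h2 := (h (τ / 2) (mem_univ _) (by rw [sub_zero, abs_of_pos (by positivity)]; linarith)).2
  refine ⟨2 / τ, by positivity, fun x hx y hy => ?_⟩
  have h3 := h2 x hx y hy
  simp only [zero_smul, sub_zero, one_mul] at h3
  rw [← smul_sub, norm_smul, Real.norm_eq_abs, abs_of_pos (by positivity : 0 < τ / 2)] at h3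
  have h4 : ‖a x - a y‖ = 2 / τ * (τ / 2 * ‖a x - a y‖) := by field_simp
  rw [h4]
  gcongr

/-- stability of embeddings -/
theorem emb_stable {f : E → E} (hf : Emb K U N f) : ∃ δ : ℝ, 0 < δ ∧ ∀ g : E → E,
    ContDiffOn ℝ ∞ (fun x => g (N x)) U → LipSm K δ (fun x => g x - f x) → Emb K U N g := by
  obtain ⟨c, hc, h1⟩ := hf.low
  refine ⟨c / 2, by positivity, fun g hg hgf => ⟨hg, c / 2, by positivity, fun x hx y hy => ?_⟩⟩
  have h2 := hgf.2 x hx y hy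
  have h3 := h1 x hx y hy
  have h4 := norm_sub_norm_le (f x - f y) (-(g x - f x - (g y - f y)))
  have e : f x - f y - -(g x - f x - (g y - f y)) = g x - g y := by abel
  rw [e, norm_neg] at h4
  have h5 : c * ‖x - y‖ = c / 2 * ‖x - y‖ + c / 2 * ‖x - y‖ := by ring
  linarith

theorem emb_inj {f : E → E} (hf : Emb K U N f) : InjOn f K := by
  obtain ⟨c, hc, h1⟩ := hf.low
  intro x hx y hy hxy
  have := h1 x hx y hy
  rw [hxy, sub_self, norm_zero] at this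
  have h2 : ‖x - y‖ ≤ 0 := by
    by_contra h
    have : 0 < c * ‖x - y‖ := mul_pos hc (not_le.1 h)
    linarith
  exact sub_eq_zero.1 (norm_le_zero_iff.1 h2)

/-- an immersion of `K` into itself -/
def Immer (K U : Set E) (N : E → E) (g : E → E) : Prop :=
  ContDiffOn ℝ ∞ (fun x => g (N x)) U ∧ MapsTo g K K ∧
    ∀ x ∈ K, ∃ c : ℝ, 0 < c ∧ ∃ ρ : ℝ, 0 < ρ ∧ ∀ y ∈ K, ‖y - x‖ < ρ → c * ‖x - y‖ ≤ ‖g x - g y‖

/-- local constancy of injectivity -/
theorem inj_local (hL : S_LOW) (hS : S_SURJ) (hR : Ret K U N) (hK : IsPreconnected K) {g : E → E}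
    (hg : Immer K U N g) : ∃ δ : ℝ, 0 < δ ∧ ∀ h : E → E, ContDiffOn ℝ ∞ (fun x => h (N x)) U →
      MapsTo h K K → LipSm K δ (fun x => h x - g x) → (InjOn g K ↔ InjOn h K) := by
  by_cases hi : InjOn g K
  · have hE : Emb K U N g := hL E E K U N g hR hg.1 (fun x hx y hy hxy => hi hx hy hxy) hg.2.2
    obtain ⟨δ, hδ, h1⟩ := emb_stable hE
    exact ⟨δ, hδ, fun h hh _ hhg => ⟨fun _ => emb_inj (h1 h hh hhg), fun _ => hi⟩⟩
  · have hi2 : ∃ x ∈ K, ∃ y ∈ K, g x = g y ∧ x ≠ y := by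
      by_contra hcon
      push Not at hcon
      exact hi fun x hx y hy hxy => hcon x hx y hy hxy
    obtain ⟨x, hx, y, hy, hxy, hne⟩ := hi2
    have hd : 0 < ‖y - x‖ := norm_pos_iff.2 (sub_ne_zero.2 (Ne.symm hne))
    obtain ⟨ρ', hρ', δ, hδ, h1⟩ := hS E K U N g hR hK hg.1 hg.2.1 x hx (hg.2.2 x hx) ‖y - x‖ hd
    refine ⟨min δ (ρ' / 2), by positivity, fun h hh hhK hhg => ⟨fun h2 => absurd h2 hi, fun h2 => ?_⟩⟩
    exfalso
    have h3 : ‖h y - g x‖ < ρ' := by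
      rw [hxy]
      exact ((hhg.1 y hy).trans (min_le_right _ _)).trans_lt (by linarith)
    obtain ⟨z, hz, hzx, hzy⟩ := h1 h hh hhK (LipSm.mono hhg (min_le_left _ _)) (h y) (hhK hy) h3
    have h4 := h2 hz hy hzy
    rw [h4] at hzx
    exact lt_irrefl _ hzx

/-- an embedding of the connected `K` into itself is onto -/
theorem emb_surj (hS : S_SURJ) (hR : Ret K U N) (hK : IsPreconnected K) {g : E → E}
    (hg : Emb K U N g) (hgK : MapsTo g K K) : SurjOn g K K := by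
  rcases K.eq_empty_or_nonempty with h0 | ⟨x₀, hx₀⟩
  · rw [h0]; exact surjOn_empty _ _
  obtain ⟨c, hc, h1⟩ := hg.low
  have hcont : ContinuousOn g K := by
    have h2 : ContinuousOn (fun x => g (N x)) K := hg.smooth.continuousOn.mono hR.sub
    exact h2.congr fun x hx => by simp only [hR.fix x hx]
  have hcl : IsClosed (g '' K) := (hR.cpt.image_of_continuousOn hcont).isClosed
  have hopen : ∀ x ∈ K, ∃ ρ' : ℝ, 0 < ρ' ∧ ∀ y ∈ K, ‖y - g x‖ < ρ' → y ∈ g '' K := by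
    intro x hx
    obtain ⟨ρ', hρ', δ, hδ, h3⟩ := hS E K U N g hR hK hg.smooth hgK x hx
      ⟨c, hc, 1, one_pos, fun y hy _ => h1 x hx y hy⟩ 1 one_pos
    refine ⟨ρ', hρ', fun y hy hyx => ?_⟩
    obtain ⟨z, hz, -, hzy⟩ := h3 g hg.smooth hgK ⟨fun x _ => by simp [hδ.le], fun x _ y _ => by
      simp only [sub_self, norm_zero]
      positivity⟩ y hy hyx
    exact ⟨z, hz, hzy⟩
  choose! ρ' hρ' h2 using hopen
  set O : Set E := ⋃ x ∈ K, ball (g x) (ρ' x) with hO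
  have hOo : IsOpen O := isOpen_biUnion fun x _ => isOpen_ball
  intro y hy
  by_contra hcon
  obtain ⟨z, hz, hz1, hz2⟩ := hK O (g '' K)ᶜ hOo hcl.isOpen_compl (fun z hz => by
    by_cases hzg : z ∈ g '' K
    · left
      obtain ⟨x, hx, rfl⟩ := hzg
      exact mem_biUnion hx (mem_ball_self (hρ' x hx))
    · exact Or.inr hzg) ⟨g x₀, hgK hx₀, mem_biUnion hx₀ (mem_ball_self (hρ' x₀ hx₀))⟩ ⟨y, hy, hcon⟩
  obtain ⟨x, hx, hzx⟩ := mem_iUnion₂.1 hz1
  refine hz2 (h2 x hx z hz ?_)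
  rw [← dist_eq_norm]
  exact hzx

/-- the smooth step -/
theorem step01 (t : ℝ) : Real.smoothTransition t ∈ Icc (0 : ℝ) 1 :=
  ⟨Real.smoothTransition.nonneg t, Real.smoothTransition.le_one t⟩

/-- straight isotopies -/
theorem iso_line (hR : Ret K U N) (hV : IsOpen V) (hKV : K ⊆ V) {a a' : E → E}
    (ha : ContDiffOn ℝ ∞ a V) (ha' : ContDiffOn ℝ ∞ a' V)
    (hU : ∀ u ∈ Icc (0 : ℝ) 1, ∀ x ∈ K, a x + u • (a' x - a x) ∈ U)
    (hE : ∀ u ∈ Icc (0 : ℝ) 1, Emb K U N (fun x => N (a x + u • (a' x - a x)))) :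
    Iso K U N (fun x => N (a x)) (fun x => N (a' x)) := by
  refine ⟨fun t x => N (a x + Real.smoothTransition t • (a' x - a x)), ?_, fun t =>
    ⟨hE _ (step01 t), fun x hx => hR.maps _ (hU _ (step01 t) x hx)⟩, fun x hx => ?_, fun x hx => ?_⟩
  · have h1 : ContDiffOn ℝ ∞ (fun p : ℝ × E => a (N p.2)) (univ ×ˢ U) :=
      (ha.comp hR.smooth fun x hx => hKV (hR.maps x hx)).comp contDiff_snd.contDiffOn
        fun p hp => hp.2
    have h2 : ContDiffOn ℝ ∞ (fun p : ℝ × E => a' (N p.2)) (univ ×ˢ U) :=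
      (ha'.comp hR.smooth fun x hx => hKV (hR.maps x hx)).comp contDiff_snd.contDiffOn
        fun p hp => hp.2
    have h3 : ContDiffOn ℝ ∞ (fun p : ℝ × E => Real.smoothTransition p.1) (univ ×ˢ U) :=
      (Real.smoothTransition.contDiff.comp contDiff_fst).contDiffOn
    exact hR.smooth.comp (h1.add (h3.smul (h2.sub h1))) fun p hp =>
      hU _ (step01 p.1) _ (hR.maps _ hp.2)
  · simp
  · simp

end gen

section moll

variable {E : Type} [NormedAddCommGroup E] [NormedSpace ℝ E] [FiniteDimensional ℝ E]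
  [MeasurableSpace E] [BorelSpace E] {μ : Measure E} [μ.IsAddHaarMeasure]
  {K U V : Set E} {N : E → E} {t₁ C : ℝ}

/-- the isotopy from a diffeomorphism to its mollification -/
theorem iso_start (hM : S_MOL) (hCt : S_CTS) (hCo : S_COMP) (hR : Ret K U N)
    (hp : Pi0 K U N t₁ C V) {η : E → ℝ} (h : Ker μ η) {φ : E → E} (hφ : Emb K U N φ)
    (hφK : MapsTo φ K K) : ∃ τ₀ : ℝ, 0 < τ₀ ∧ ∀ τ : ℝ, 0 < τ → τ < τ₀ →
      Iso K U N φ (fun x => N (moll μ η (fun z => φ (N z)) τ x)) ∧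
      InjOn (fun x => N (moll μ η (fun z => φ (N z)) τ x)) K := by
  obtain ⟨δ₁, hδ₁, h1⟩ := emb_stable hφ
  obtain ⟨L, hL0, hL⟩ := lip_of_smooth hCt hR.cpt hR.opn hR.sub hφ.smooth
  obtain ⟨δ₂, hδ₂, h2⟩ := hCo E E E K U φ L N hR.cpt hR.opn hR.smooth
    (fun x hx => hR.sub (hφK hx)) (fun x hx y hy => by
      have := hL x hx y hy
      rwa [hR.fix x hx, hR.fix y hy] at this) δ₁ hδ₁
  have hJ : (0 : ℝ) ∈ Ioo (-t₁) t₁ := ⟨by linarith [hp.pos], hp.pos⟩
  obtain ⟨τ₀, hτ₀, h3⟩ := hCt E E K V (Ioo (-t₁) t₁) _ hR.cpt hp.opn hp.sub isOpen_Ioo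
    (joint hM hR hp h hφ.smooth) 0 hJ δ₂ hδ₂
  refine ⟨min τ₀ t₁, lt_min hτ₀ hp.pos, fun τ hτ hττ => ?_⟩
  have hτ1 : τ < τ₀ := hττ.trans_le (min_le_left _ _)
  have hτ2 : τ < t₁ := hττ.trans_le (min_le_right _ _)
  have key : ∀ t : ℝ, 0 ≤ t → t ≤ τ → (∀ x ∈ K, moll μ η (fun z => φ (N z)) t x ∈ U) ∧
      Emb K U N (fun x => N (moll μ η (fun z => φ (N z)) t x)) := by
    intro t ht0 ht
    have htJ : t ∈ Ioo (-t₁) t₁ := ⟨by linarith [hp.pos], by linarith⟩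
    have h4 := h3 t htJ (by rw [sub_zero, abs_of_nonneg ht0]; linarith)
    have h5 : LipSm K δ₂ (fun x => moll μ η (fun z => φ (N z)) t x - φ x) :=
      LipSm.congr h4 fun x hx => by
        simp only
        rw [moll_zero h, hR.fix x hx]
    obtain ⟨h6, h7⟩ := h2 (fun x => moll μ η (fun z => φ (N z)) t x) h5
    refine ⟨h6, h1 _ ?_ (LipSm.congr h7 fun x hx => by
      rw [hR.fix _ (hφK hx)])⟩
    exact hR.smooth.comp (sm_moll_N hM hR hp h hφ.smooth (by rw [abs_of_nonneg ht0]; linarith))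
      fun x hx => h6 _ (hR.maps x hx)
  have hst : ∀ t : ℝ, 0 ≤ Real.smoothTransition t * τ ∧ Real.smoothTransition t * τ ≤ τ := fun t =>
    ⟨mul_nonneg (step01 t).1 hτ.le, mul_le_of_le_one_left hτ.le (step01 t).2⟩
  refine ⟨⟨fun t x => N (moll μ η (fun z => φ (N z)) (Real.smoothTransition t * τ) x), ?_,
    fun t => ⟨(key _ (hst t).1 (hst t).2).2, fun x hx =>
      hR.maps _ ((key _ (hst t).1 (hst t).2).1 x hx)⟩, fun x hx => ?_, fun x hx => ?_⟩,
    emb_inj (key τ hτ.le le_rfl).2⟩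
  · have h5 : ContDiffOn ℝ ∞ (fun p : ℝ × E => ((Real.smoothTransition p.1 * τ, N p.2) : ℝ × E))
        (univ ×ˢ U) := by
      refine ContDiffOn.prodMk ?_ (hR.smooth.comp contDiff_snd.contDiffOn fun p hp => hp.2)
      exact ((Real.smoothTransition.contDiff.comp contDiff_fst).mul contDiff_const).contDiffOn
    have h6 : ContDiffOn ℝ ∞ (fun p : ℝ × E =>
        moll μ η (fun z => φ (N z)) (Real.smoothTransition p.1 * τ) (N p.2)) (univ ×ˢ U) :=
      (joint hM hR hp h hφ.smooth).comp h5 fun p hp' =>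
        ⟨⟨by linarith [(hst p.1).1, hp.pos], by linarith [(hst p.1).2]⟩,
          hp.sub (hR.maps _ hp'.2)⟩
    exact hR.smooth.comp h6 fun p hp' => (key _ (hst p.1).1 (hst p.1).2).1 _ (hR.maps _ hp'.2)
  · simp only [Real.smoothTransition.zero, zero_mul]
    rw [moll_zero h, hR.fix x hx, hR.fix _ (hφK hx)]
  · simp only [Real.smoothTransition.one, one_mul]

/-- continuity in `s` of the mollifications in the Lipschitz norm -/
theorem cts_moll (hR : Ret K U N) (hp : Pi0 K U N t₁ C V) {η : E → ℝ} (h : Ker μ η) {Λ : ℝ}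
    (hΛ2 : 2 ≤ Λ)
    (hΛ : ∀ v : E, ∫ y, |η y - η (y + v)| ∂μ ≤ Λ * ‖v‖ ∧ ∫ y, |η y - η (y + v)| ∂μ ≤ 2)
    {f : ℝ → E → E} (hf : ContinuousOn (fun p : ℝ × E => f p.1 p.2) (Icc 0 1 ×ˢ K)) {τ : ℝ}
    (hτ : 0 < τ) (hτ1 : τ < t₁) : ∀ s ∈ Icc (0 : ℝ) 1, ∀ δ : ℝ, 0 < δ → ∃ τ' : ℝ, 0 < τ' ∧
      ∀ s' ∈ Icc (0 : ℝ) 1, |s' - s| < τ' → LipSm K δ (fun x =>
        moll μ η (fun z => f s' (N z)) τ x - moll μ η (fun z => f s (N z)) τ x) := by
  intro s hs δ hδ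
  have hcont : ∀ s ∈ Icc (0 : ℝ) 1, ContinuousOn (fun x => f s (N x)) U := by
    intro s hs
    exact hf.comp (g := fun p : ℝ × E => f p.1 p.2) (f := fun x : E => ((s, N x) : ℝ × E))
      (continuousOn_const.prodMk hR.smooth.continuousOn) fun x hx => ⟨hs, hR.maps x hx⟩
  set β : ℝ := δ * min 1 (τ / (Λ + 1)) with hβ
  have hβ0 : 0 < β := by positivity
  obtain ⟨τ', hτ', h5⟩ : ∃ τ' : ℝ, 0 < τ' ∧ ∀ s' ∈ Icc (0 : ℝ) 1, |s' - s| < τ' → ∀ x ∈ K,
      ‖f s' x - f s x‖ ≤ β := by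
    have hcpt2 : IsCompact ((Icc (0 : ℝ) 1 ×ˢ K) : Set (ℝ × E)) := isCompact_Icc.prod hR.cpt
    have c5 : ContinuousOn (fun p : ℝ × E => ‖f p.1 p.2 - f s p.2‖) (Icc (0 : ℝ) 1 ×ˢ K) := by
      refine (hf.sub ?_).norm
      exact hf.comp (g := fun p : ℝ × E => f p.1 p.2) (f := fun p : ℝ × E => ((s, p.2) : ℝ × E))
        (by fun_prop) fun p hp => ⟨hs, hp.2⟩
    have k1 : IsCompact ((Icc (0 : ℝ) 1 ×ˢ K) ∩
        (fun p : ℝ × E => ‖f p.1 p.2 - f s p.2‖) ⁻¹' Ici β) :=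
      hcpt2.of_isClosed_subset (c5.preimage_isClosed_of_isClosed hcpt2.isClosed isClosed_Ici)
        inter_subset_left
    obtain ⟨w', hw', h2⟩ := exists_pos_low k1 (u := fun p : ℝ × E => |p.1 - s|)
      (by fun_prop) (fun p hp => by
      refine abs_pos.2 (sub_ne_zero.2 fun e => ?_)
      have e3 : β ≤ ‖f p.1 p.2 - f s p.2‖ := hp.2
      rw [e, sub_self, norm_zero] at e3
      linarith)
    refine ⟨w', hw', fun s' hs' hss x hx => ?_⟩
    by_contra hcon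
    exact absurd (h2 (s', x) ⟨⟨hs', hx⟩, (not_le.1 hcon).le⟩) (not_le.2 hss)
  refine ⟨τ', hτ', fun s' hs' hss => ?_⟩
  have hb := h5 s' hs' hss
  have hττ : |τ| < t₁ := by rwa [abs_of_pos hτ]
  have hW : ContinuousOn (fun z => f s' (N z) - f s (N z)) U := (hcont s' hs').sub (hcont s hs)
  have e : ∀ x ∈ K, moll μ η (fun z => f s' (N z)) τ x - moll μ η (fun z => f s (N z)) τ x =
      moll μ η (fun z => f s' (N z) - f s (N z)) τ x := fun x hx =>
    moll_sub h hR.opn (hcont s' hs') (hcont s hs) x τ (hp.mem (hp.sub hx) hττ)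
  have hbb : ∀ x ∈ K, ∀ y : E, ‖y‖ ≤ 1 →
      ‖f s' (N (x + τ • y)) - f s (N (x + τ • y))‖ ≤ β := fun x hx y hy =>
    hb _ (hR.maps _ (hp.mem (hp.sub hx) hττ y hy))
  have hβ1 : β ≤ δ := by
    calc β ≤ δ * 1 := by
          rw [hβ]
          gcongr
          exact min_le_left _ _
      _ = δ := mul_one _
  have hβ2 : β * (Λ / τ) ≤ δ := by
    calc β * (Λ / τ) ≤ (δ * (τ / (Λ + 1))) * (Λ / τ) := by
          rw [hβ]
          gcongr
          exact min_le_right _ _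
      _ = δ * (Λ / (Λ + 1)) := by field_simp
      _ ≤ δ * 1 := by
          gcongr
          rw [div_le_one (by linarith)]
          linarith
      _ = δ := mul_one _
  refine ⟨fun x hx => ?_, fun x hx y hy => ?_⟩
  · simp only [e x hx]
    have := moll_close h hR.opn hW x τ (hp.mem (hp.sub hx) hττ) 0 (β := β) (fun y hy => by
      rw [sub_zero]
      exact hbb x hx y hy)
    rw [sub_zero] at this
    linarith
  · simp only [e x hx, e y hy]
    have := (moll_diff h hΛ hR.opn hW x y (β := β) hτ (hp.mem (hp.sub hx) hττ)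
      (hp.mem (hp.sub hy) hττ) (hbb x hx) (hbb y hy)).1
    calc _ ≤ _ := this
      _ = β * (Λ / τ) * ‖x - y‖ := by ring
      _ ≤ δ * ‖x - y‖ := by gcongr

end moll

end Pool.Agent.L7h32.PI
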