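import Pool.Agent.L7h32.PI.Asm

/-!
# Project PI: the path theorem
-/

set_option autoImplicit false
set_option linter.unusedSectionVars false
set_option linter.unusedVariables false

open Set Filter Topology Metric MeasureTheory
open scoped ContDiff

noncomputable section

namespace Pool.Agent.L7h32.PI

open Pool.Agent.L7h32.AA

theorem icc_const {P : ℝ → Prop} (h : ∀ s ∈ Icc (0 : ℝ) 1, ∃ τ : ℝ, 0 < τ ∧
    ∀ s' ∈ Icc (0 : ℝ) 1, |s' - s| < τ → (P s ↔ P s')) (h0 : P 0) : ∀ s ∈ Icc (0 : ℝ) 1, P s := by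
  intro s₁ hs₁
  by_contra hcon
  choose! τ hτ h1 using h
  set O₁ : Set ℝ := ⋃ s ∈ {s | s ∈ Icc (0 : ℝ) 1 ∧ P s}, ball s (τ s) with hO₁
  set O₂ : Set ℝ := ⋃ s ∈ {s | s ∈ Icc (0 : ℝ) 1 ∧ ¬ P s}, ball s (τ s) with hO₂
  obtain ⟨z, hz, hz1, hz2⟩ := isPreconnected_Icc O₁ O₂ (isOpen_biUnion fun _ _ => isOpen_ball)
    (isOpen_biUnion fun _ _ => isOpen_ball) (fun s hs => by
      by_cases hP : P s
      · exact Or.inl (mem_biUnion (show s ∈ {s | s ∈ Icc (0 : ℝ) 1 ∧ P s} from ⟨hs, hP⟩)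
          (mem_ball_self (hτ s hs)))
      · exact Or.inr (mem_biUnion (show s ∈ {s | s ∈ Icc (0 : ℝ) 1 ∧ ¬ P s} from ⟨hs, hP⟩)
          (mem_ball_self (hτ s hs))))
    ⟨0, by simp, mem_biUnion (show (0 : ℝ) ∈ {s | s ∈ Icc (0 : ℝ) 1 ∧ P s} from ⟨by simp, h0⟩)
      (mem_ball_self (hτ 0 (by simp)))⟩
    ⟨s₁, hs₁, mem_biUnion (show s₁ ∈ {s | s ∈ Icc (0 : ℝ) 1 ∧ ¬ P s} from ⟨hs₁, hcon⟩)
      (mem_ball_self (hτ s₁ hs₁))⟩
  obtain ⟨s, hs, hzs⟩ := mem_iUnion₂.1 hz1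
  obtain ⟨s', hs', hzs'⟩ := mem_iUnion₂.1 hz2
  have a1 := (h1 s hs.1 z hz (by rwa [mem_ball, Real.dist_eq] at hzs)).1 hs.2
  exact hs'.2 ((h1 s' hs'.1 z hz (by rwa [mem_ball, Real.dist_eq] at hzs')).2 a1)

section main

variable {E : Type} [NormedAddCommGroup E] [NormedSpace ℝ E] [FiniteDimensional ℝ E]
  [MeasurableSpace E] [BorelSpace E] {μ : Measure E} [μ.IsAddHaarMeasure]
  {K U V : Set E} {N : E → E} {t₁ C : ℝ}

theorem path_iso (hL : S_LOW) (hM : S_MOL) (hCt : S_CTS) (hNU : S_NU) (hCo : S_COMP) (hS : S_SURJ)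
    (hTR : S_TRANS) (hR : Ret K U N) (hK : IsPreconnected K) (hp : Pi0 K U N t₁ C V)
    {η : E → ℝ} (h : Ker μ η) {Λ ε H : ℝ} (hΛ2 : 2 ≤ Λ)
    (hΛ : ∀ v : E, ∫ y, |η y - η (y + v)| ∂μ ≤ Λ * ‖v‖ ∧ ∫ y, |η y - η (y + v)| ∂μ ≤ 2)
    (hε0 : 0 ≤ ε) (hε : ε * ((C + 1) * Λ) ≤ 1 / 8) (hH : 1 ≤ H)
    {f : ℝ → E → E} (hf : ContinuousOn (fun p : ℝ × E => f p.1 p.2) (Icc 0 1 ×ˢ K))
    (hfK : ∀ s ∈ Icc (0 : ℝ) 1, MapsTo (f s) K K)
    (hA : ∀ r₀ : ℝ, 0 < r₀ → ∃ r : ℝ, 0 < r ∧ r < r₀ ∧ ∀ s ∈ Icc (0 : ℝ) 1, NAff K ε H r (f s))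
    (h0 : Emb K U N (f 0)) (h1 : Emb K U N (f 1)) : Iso K U N (f 0) (f 1) := by
  have hC := hp.one
  have hcont : ∀ s ∈ Icc (0 : ℝ) 1, ContinuousOn (fun x => f s (N x)) U := by
    intro s hs
    exact hf.comp (g := fun p : ℝ × E => f p.1 p.2) (f := fun x : E => ((s, N x) : ℝ × E))
      (continuousOn_const.prodMk hR.smooth.continuousOn) fun x hx => ⟨hs, hR.maps x hx⟩
  have i0 : (0 : ℝ) ∈ Icc (0 : ℝ) 1 := by simp
  have i1 : (1 : ℝ) ∈ Icc (0 : ℝ) 1 := by simp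
  -- κ and w
  set κ : ℝ := min (1 / (16 * ((H + 1) * (C + 1) * Λ))) (1 / (32 * H)) with hκ
  have hκ0 : 0 < κ := by positivity
  have hκ1 : κ * ((H + 1) * (C + 1) * Λ) ≤ 1 / 16 := by
    calc κ * ((H + 1) * (C + 1) * Λ) ≤ (1 / (16 * ((H + 1) * (C + 1) * Λ))) *
          ((H + 1) * (C + 1) * Λ) := by
          gcongr
          exact min_le_left _ _
      _ = 1 / 16 := by
        have : 0 < Λ := by linarith
        field_simp
  have hκ2 : κ * (32 * H) ≤ 1 := by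
    calc κ * (32 * H) ≤ (1 / (32 * H)) * (32 * H) := by
          gcongr
          exact min_le_right _ _
      _ = 1 := by field_simp
  obtain ⟨w, hw, hNU1⟩ := (hNU E K U N hR).1 κ hκ0
  -- equicontinuity
  obtain ⟨r₁, hr₁, hosc⟩ : ∃ r₁ : ℝ, 0 < r₁ ∧ ∀ s ∈ Icc (0 : ℝ) 1, ∀ x ∈ K, ∀ y ∈ K,
      ‖x - y‖ < r₁ → ‖f s x - f s y‖ ≤ w / 2 := by
    have hcpt : IsCompact ((Icc (0 : ℝ) 1 ×ˢ (K ×ˢ K)) : Set (ℝ × E × E)) :=
      isCompact_Icc.prod (hR.cpt.prod hR.cpt)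
    have c1 : ContinuousOn (fun p : ℝ × E × E => f p.1 p.2.1) (Icc (0 : ℝ) 1 ×ˢ (K ×ˢ K)) :=
      hf.comp (g := fun p : ℝ × E => f p.1 p.2) (f := fun p : ℝ × E × E => ((p.1, p.2.1) : ℝ × E))
        (by fun_prop) fun p hp => ⟨hp.1, hp.2.1⟩
    have c2 : ContinuousOn (fun p : ℝ × E × E => f p.1 p.2.2) (Icc (0 : ℝ) 1 ×ˢ (K ×ˢ K)) :=
      hf.comp (g := fun p : ℝ × E => f p.1 p.2) (f := fun p : ℝ × E × E => ((p.1, p.2.2) : ℝ × E))
        (by fun_prop) fun p hp => ⟨hp.1, hp.2.2⟩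
    have c3 : ContinuousOn (fun p : ℝ × E × E => ‖f p.1 p.2.1 - f p.1 p.2.2‖)
        (Icc (0 : ℝ) 1 ×ˢ (K ×ˢ K)) := (c1.sub c2).norm
    have c4 : Continuous (fun p : ℝ × E × E => ‖p.2.1 - p.2.2‖) := by fun_prop
    have k1 : IsCompact ((Icc (0 : ℝ) 1 ×ˢ (K ×ˢ K)) ∩
        (fun p : ℝ × E × E => ‖f p.1 p.2.1 - f p.1 p.2.2‖) ⁻¹' Ici (w / 2)) :=
      hcpt.of_isClosed_subset (c3.preimage_isClosed_of_isClosed hcpt.isClosed isClosed_Ici)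
        inter_subset_left
    obtain ⟨r₁, hr₁, h2⟩ := exists_pos_low k1 c4.continuousOn (fun p hp => by
      refine norm_pos_iff.2 (sub_ne_zero.2 fun e => ?_)
      have e3 : w / 2 ≤ ‖f p.1 p.2.1 - f p.1 p.2.2‖ := hp.2
      rw [e, sub_self, norm_zero] at e3
      linarith)
    refine ⟨r₁, hr₁, fun s hs x hx y hy hxy => ?_⟩
    by_contra hcon
    exact absurd (h2 (s, x, y) ⟨⟨hs, hx, hy⟩, (not_le.1 hcon).le⟩) (not_le.2 hxy)
  obtain ⟨τ₀, hτ₀, st0⟩ := iso_start hM hCt hCo hR hp h h0 (hfK 0 i0)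
  obtain ⟨τ₁, hτ₁, st1⟩ := iso_start hM hCt hCo hR hp h h1 (hfK 1 i1)
  -- the scale
  obtain ⟨r, hr, hr2, hAr⟩ := hA (min r₁ ((C + 1) * min t₁ (min τ₀ τ₁))) (by
    have := hp.pos
    positivity)
  have hrr₁ : r < r₁ := hr2.trans_le (min_le_left _ _)
  set τ : ℝ := r / (C + 1) with hτd
  have hτ : 0 < τ := by positivity
  have hrτ : r = (C + 1) * τ := by
    rw [hτd]
    field_simp
  have hττ : τ < min t₁ (min τ₀ τ₁) := by
    have h2 : r < (C + 1) * min t₁ (min τ₀ τ₁) := hr2.trans_le (min_le_right _ _)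
    rw [hrτ] at h2
    exact lt_of_mul_lt_mul_left h2 (by linarith)
  have hτt : τ < t₁ := hττ.trans_le (min_le_left _ _)
  have hτ0 : τ < τ₀ := hττ.trans_le ((min_le_right _ _).trans (min_le_left _ _))
  have hτ1 : τ < τ₁ := hττ.trans_le ((min_le_right _ _).trans (min_le_right _ _))
  have hosc' : ∀ s ∈ Icc (0 : ℝ) 1, ∀ x ∈ K, ∀ y ∈ K, ‖x - y‖ ≤ r → ‖f s x - f s y‖ ≤ w / 2 :=
    fun s hs x hx y hy hxy => hosc s hs x hx y hy (by linarith)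
  set a : ℝ → E → E := fun s x => moll μ η (fun z => f s (N z)) τ x with ha
  set g : ℝ → E → E := fun s x => N (a s x) with hg
  have hCτ : C * τ ≤ r := by rw [hrτ]; nlinarith
  -- a s x is in U
  have hmem : ∀ s ∈ Icc (0 : ℝ) 1, ∀ x ∈ K, a s x ∈ U := by
    intro s hs x hx
    have m1 := moll_near hR hp h (hcont s hs) hτ hτt hCτ (hosc' s hs) hx hx (by
      rw [sub_self, norm_zero, add_zero]; exact hCτ)
    exact (hNU1 (f s x) (hfK s hs hx) (a s x) (f s x) (by linarith) (by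
      rw [sub_self, norm_zero]; exact hw)).1
  have hsma : ∀ s ∈ Icc (0 : ℝ) 1, ContDiffOn ℝ ∞ (a s) V := fun s hs =>
    Pool.Agent.L7h34.AA.mol2 h hR.opn hp.opn hp.pos hp.inU (hcont s hs) hτ hτt
  have himm : ∀ s ∈ Icc (0 : ℝ) 1, Immer K U N (g s) := by
    intro s hs
    refine ⟨?_, fun x hx => hR.maps _ (hmem s hs x hx), fun x hx => ?_⟩
    · exact hR.smooth.comp ((hsma s hs).comp hR.smooth fun x hx => hp.sub (hR.maps x hx))
        fun x hx => hmem s hs _ (hR.maps x hx)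
    · obtain ⟨l, hl, h2⟩ := imm hR hp h hΛ2 hΛ hε0 hε hH hNU1 hκ0.le hκ1 hκ2 (hcont s hs)
        (hfK s hs) (hAr s hs) hτ hτt hrτ hw (hosc' s hs) hx
      exact ⟨l, hl, τ, hτ, fun y hy hyx => h2 y hy hyx.le⟩
  have hcts := cts_moll hR hp h hΛ2 hΛ hf hτ hτt
  -- composition with N
  have hcomp : ∀ s ∈ Icc (0 : ℝ) 1, ∀ δ' : ℝ, 0 < δ' → ∃ δ : ℝ, 0 < δ ∧ ∀ a' : E → E,
      LipSm K δ (fun x => a' x - a s x) →
      (∀ x ∈ K, a' x ∈ U) ∧ LipSm K δ' (fun x => N (a' x) - N (a s x)) := by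
    intro s hs δ' hδ'
    obtain ⟨L, -, hLip⟩ := lip_of_smooth hCt hR.cpt hp.opn hp.sub (hsma s hs)
    exact hCo E E E K U (a s) L N hR.cpt hR.opn hR.smooth (hmem s hs) hLip δ' hδ'
  -- injectivity
  have hinj : ∀ s ∈ Icc (0 : ℝ) 1, InjOn (g s) K := by
    refine icc_const (fun s hs => ?_) (st0 τ hτ hτ0).2
    obtain ⟨δ₁, hδ₁, h2⟩ := inj_local hL hS hR hK (himm s hs)
    obtain ⟨δ₂, hδ₂, h3⟩ := hcomp s hs δ₁ hδ₁
    obtain ⟨τ', hτ', h4⟩ := hcts s hs δ₂ hδ₂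
    exact ⟨τ', hτ', fun s' hs' hss => h2 (g s') (himm s' hs').1 (himm s' hs').2.1
      (h3 (a s') (h4 s' hs' hss)).2⟩
  have hemb : ∀ s ∈ Icc (0 : ℝ) 1, Emb K U N (g s) := fun s hs =>
    hL E E K U N (g s) hR (himm s hs).1 (fun x hx y hy hxy => hinj s hs hx hy hxy) (himm s hs).2.2
  -- local isotopies
  have hloc : ∀ s ∈ Icc (0 : ℝ) 1, ∃ τ' : ℝ, 0 < τ' ∧ ∀ s' ∈ Icc (0 : ℝ) 1, |s' - s| < τ' →
      Iso K U N (g s) (g s') := by
    intro s hs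
    obtain ⟨δ₁, hδ₁, h2⟩ := emb_stable (hemb s hs)
    obtain ⟨δ₂, hδ₂, h3⟩ := hcomp s hs δ₁ hδ₁
    obtain ⟨τ', hτ', h4⟩ := hcts s hs δ₂ hδ₂
    refine ⟨τ', hτ', fun s' hs' hss => ?_⟩
    have h5 := h4 s' hs' hss
    have h6 : ∀ u ∈ Icc (0 : ℝ) 1, LipSm K δ₂ (fun x => (a s x + u • (a s' x - a s x)) - a s x) := by
      intro u hu
      have e : ∀ x, (a s x + u • (a s' x - a s x)) - a s x = u • (a s' x - a s x) := fun x => by
        abel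
      simp only [e]
      refine ⟨fun x hx => ?_, fun x hx y hy => ?_⟩
      · rw [norm_smul, Real.norm_eq_abs, abs_of_nonneg hu.1]
        have := h5.1 x hx
        have h7 : u * ‖a s' x - a s x‖ ≤ 1 * ‖a s' x - a s x‖ :=
          mul_le_mul_of_nonneg_right hu.2 (norm_nonneg _)
        simp only [ha] at this h7 ⊢
        linarith
      · rw [← smul_sub, norm_smul, Real.norm_eq_abs, abs_of_nonneg hu.1]
        have := h5.2 x hx y hy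
        have h7 : u * ‖a s' x - a s x - (a s' y - a s y)‖ ≤
            1 * ‖a s' x - a s x - (a s' y - a s y)‖ :=
          mul_le_mul_of_nonneg_right hu.2 (norm_nonneg _)
        simp only [ha] at this h7 ⊢
        linarith
    refine iso_line hR hp.opn hp.sub (hsma s hs) (hsma s' hs') (fun u hu => (h3 _ (h6 u hu)).1)
      fun u hu => h2 _ ?_ (h3 _ (h6 u hu)).2
    have h8 : ContDiffOn ℝ ∞ (fun x => a s x + u • (a s' x - a s x)) V :=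
      (hsma s hs).add (contDiffOn_const.smul ((hsma s' hs').sub (hsma s hs)))
    exact hR.smooth.comp (h8.comp hR.smooth fun x hx => hp.sub (hR.maps x hx))
      fun x hx => (h3 _ (h6 u hu)).1 _ (hR.maps x hx)
  have htr : ∀ f g h : E → E, Iso K U N f g → Iso K U N g h → Iso K U N f h :=
    fun f g h => (hTR E K U N f g h hR).1
  have hsy : ∀ f g : E → E, Iso K U N f g → Iso K U N g f :=
    fun f g => (hTR E K U N f g g hR).2
  have hall : ∀ s ∈ Icc (0 : ℝ) 1, Iso K U N (f 0) (g s) := by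
    refine icc_const (fun s hs => ?_) (st0 τ hτ hτ0).1
    obtain ⟨τ', hτ', h2⟩ := hloc s hs
    exact ⟨τ', hτ', fun s' hs' hss => ⟨fun h3 => htr _ _ _ h3 (h2 s' hs' hss),
      fun h3 => htr _ _ _ h3 (hsy _ _ (h2 s' hs' hss))⟩⟩
  exact htr _ _ _ (hall 1 i1) (hsy _ _ (st1 τ hτ hτ1).1)

end main

end Pool.Agent.L7h32.PI
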