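import Pool.Agent.L7h32.PI.Gen

/-!
# Project PI: the converse (statement)
-/

set_option autoImplicit false

open Set Filter Topology Metric MeasureTheory
open scoped ContDiff

noncomputable section

namespace Pool.Agent.L7h32.PI

open Pool.Agent.L7h32.AA

/-- S_CONV: a smooth isotopy is nearly affine at all small scales, with one bound `H` for the distortion.
PROOF. For `(s, x) ∈ [0,1] × K` let `P_x = DN(x)` (idempotent, `S_NU`), `B = D(M_s ∘ N)(x)`. There is a
linear isomorphism `A₀ : ker P_x → ker P_{M_s x}` (equal ranks, `S_RK`; `M_s x ∈ K`); put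
`T_{s,x} = B + A₀ ∘ (1 - P_x)`: injective (as in the proof of `S_SURJ`, Pool.Agent.L7h69.PI: `P_{M_s x} B = B`,
and `B v = 0`, `P_x v = v` imply `v = 0` since `M_s` has the lower bound of `Emb` on `K`, from `IsDiff.emb`).
(1) uniform bounds `c |v| ≤ |T v| ≤ C |v|`: `T'_{s',x'} = D(M_{s'} ∘ N)(x') + A₀ ∘ (1 - P_x)` with the fixed `A₀`,
`P_x` is continuous in `(s', x')`, so the bounds hold near `(s, x)` for some maps `T` with
`T = D(M_{s'} ∘ N)(x')` on `ran P_{x'}` up to `κ` for any given `κ`: compactness of `[0,1] × K`.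
A way to organise it: say that `c > 0` is good at `(s, x)` if for every `κ > 0` there is a neighbourhood `W` of
`(s, x)` in `ℝ × E` and `T` with `c |v| ≤ |T v| ≤ c⁻¹ |v|` and `|M_{s'} y - M_{s'} x' - T (y - x')| ≤ κ |y - x'|` for
`x', y ∈ K`, `(s', x'), (s', y) ∈ W`. Lemma A: each `(s, x)` has a good `c`; moreover then `c / 2` is good at all
near `(s', x')` (take `T' = T + (D(M_{s'} ∘ N)(x') - D(M_s ∘ N)(x)) ∘ P_x`-type corrections, or prove directly that
`c` can be chosen locally uniformly by the formula for `T'` above). Lemma B: compactness gives one `c` good at all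
points; `H = c⁻²`, `l = c`. Then for given `ε`, `r₀` a Lebesgue number argument with `κ = ε c` gives `r`
(`r < r₀`), `b = M_s x - T x`. -/
def S_CONV : Prop :=
  ∀ (E : Type) [NormedAddCommGroup E] [NormedSpace ℝ E] [FiniteDimensional ℝ E]
    (K U : Set E) (N : E → E) (M : ℝ × E → E), Ret K U N → IsPreconnected K →
    ContDiff ℝ ∞ M → (∀ t, IsDiff K fun x => M (t, x)) →
    ∃ H : ℝ, ∀ ε : ℝ, 0 < ε → ∃ r₁ : ℝ, 0 < r₁ ∧ ∀ r : ℝ, 0 < r → r < r₁ →
      ∀ s ∈ Icc (0 : ℝ) 1, NAff K ε H r fun x => M (s, x)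

end Pool.Agent.L7h32.PI
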