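import Pool.Agent.L7h32.PI.Asm2
import Pool.Agent.L7h65.PI.Trans
import Pool.Agent.L7h69.PI.Nu
import Pool.Agent.L7h69.PI.Surj
import Pool.Agent.L7h69.PI.Comp
import Pool.Agent.L7h50.PI.Rk
import Pool.Agent.L7h26.AA.Ext
import Pool.Agent.L7h73.AA.Cts
import Pool.Agent.L7h73.AA.Pi
import Pool.Agent.L7h34.AA.Low
import Pool.Agent.L7h34.AA.Mol

/-!
# Project PI: smooth isotopies, conversions and the general path theorem
-/

set_option autoImplicit false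
set_option linter.unusedSectionVars false
set_option linter.unusedVariables false

open Set Filter Topology Metric MeasureTheory
open scoped ContDiff Manifold

noncomputable section

namespace Pool.Agent.L7h32.PI

open Pool.Agent.L7h32.AA

theorem pSURJ : S_SURJ := Pool.Agent.L7h69.PI.s_SURJ_of_RK Pool.Agent.L7h50.PI.s_RK

section gen

variable {E : Type} [NormedAddCommGroup E] [NormedSpace ℝ E]

/-- `F` is a diffeomorphism of `K` -/
def IsDiff (K : Set E) (F : E → E) : Prop :=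
  ContDiff ℝ ∞ F ∧ (∀ x ∈ K, F x ∈ K) ∧
    ∃ G : E → E, ContDiff ℝ ∞ G ∧ ∀ x ∈ K, G x ∈ K ∧ G (F x) = x ∧ F (G x) = x

/-- smooth isotopies -/
def SmIso (K : Set E) (F₀ F₁ : E → E) : Prop :=
  ∃ M : ℝ × E → E, ContDiff ℝ ∞ M ∧ (∀ t, IsDiff K fun x => M (t, x)) ∧
    (∀ x ∈ K, M (0, x) = F₀ x) ∧ ∀ x ∈ K, M (1, x) = F₁ x

variable [FiniteDimensional ℝ E] {K U : Set E} {N : E → E}

/-- a cutoff function -/
theorem cutoff (hK : IsCompact K) (hU : IsOpen U) (hKU : K ⊆ U) :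
    ∃ (χ : E → ℝ) (C : Set E), ContDiff ℝ ∞ χ ∧ IsCompact C ∧ C ⊆ U ∧ (∀ x ∈ K, χ x = 1) ∧
      ∀ x, x ∉ C → χ x = 0 := by
  obtain ⟨C, hC, hKC, hCU⟩ := exists_compact_between hK hU hKU
  obtain ⟨χ, hχ0, hχ1, hχ⟩ := exists_contMDiffMap_zero_one_of_isClosed (n := ⊤) 𝓘(ℝ, E)
    (s := (interior C)ᶜ) (t := K) isOpen_interior.isClosed_compl hK.isClosed
    (Set.disjoint_left.2 fun y hy hy' => hy (hKC hy'))
  have hχs : ContDiff ℝ ∞ χ := by
    have := χ.contMDiff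
    rw [contMDiff_iff_contDiff] at this
    exact this
  exact ⟨χ, C, hχs, hC, hCU, fun x hx => hχ1 hx, fun x hx => hχ0 fun h => hx (interior_subset h)⟩

theorem IsDiff.emb (hR : Ret K U N) {F : E → E} (hF : IsDiff K F) : Emb K U N F := by
  obtain ⟨h1, h2, G, h3, h4⟩ := hF
  refine ⟨h1.comp_contDiffOn hR.smooth, ?_⟩
  obtain ⟨L, hL0, hL⟩ := lip_of_smooth Pool.Agent.L7h73.AA.s_CTS hR.cpt isOpen_univ (subset_univ K)
    h3.contDiffOn
  refine ⟨1 / (L + 1), by positivity, fun x hx y hy => ?_⟩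
  have h5 := hL _ (h2 x hx) _ (h2 y hy)
  rw [(h4 x hx).2.1, (h4 y hy).2.1] at h5
  rw [div_mul_eq_mul_div, one_mul, div_le_iff₀ (by positivity)]
  have := norm_nonneg (F x - F y)
  nlinarith

theorem emb_congr {F G : E → E} (hR : Ret K U N) (hF : Emb K U N F) (h : ∀ x ∈ K, G x = F x) :
    Emb K U N G := by
  refine ⟨hF.smooth.congr fun x hx => h _ (hR.maps x hx), ?_⟩
  obtain ⟨c, hc, h1⟩ := hF.low
  exact ⟨c, hc, fun x hx y hy => by rw [h x hx, h y hy]; exact h1 x hx y hy⟩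

/-- extension of smooth families by a cutoff -/
theorem smIso_of (hR : Ret K U N) (hK : IsPreconnected K) {f g : E → E} (h : Iso K U N f g) :
    SmIso K f g := by
  obtain ⟨Γ, h1, h2, h3, h4⟩ := h
  obtain ⟨χ, C, hχ, hC, hCU, hχ1, hχ0⟩ := cutoff hR.cpt hR.opn hR.sub
  have hsm : ContDiff ℝ ∞ (fun p : ℝ × E => χ p.2 • Γ p.1 (N p.2)) := by
    rw [contDiff_iff_contDiffAt]
    rintro ⟨t, x⟩
    by_cases hx : x ∈ C
    · have e1 : ContDiffAt ℝ ∞ (fun p : ℝ × E => Γ p.1 (N p.2)) (t, x) :=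
        h1.contDiffAt ((isOpen_univ.prod hR.opn).mem_nhds ⟨mem_univ _, hCU hx⟩)
      have e2 : ContDiffAt ℝ ∞ (fun p : ℝ × E => χ p.2) (t, x) :=
        (hχ.comp contDiff_snd).contDiffAt
      exact e2.smul e1
    · have e3 : (fun p : ℝ × E => χ p.2 • Γ p.1 (N p.2)) =ᶠ[𝓝 (t, x)] fun _ => 0 := by
        have : (Prod.snd : ℝ × E → E) ⁻¹' Cᶜ ∈ 𝓝 (t, x) :=
          (hC.isClosed.isOpen_compl.preimage continuous_snd).mem_nhds hx
        filter_upwards [this] with p hp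
        rw [hχ0 p.2 hp, zero_smul]
      exact contDiffAt_const.congr_of_eventuallyEq e3
  have hev : ∀ t, ∀ x ∈ K, χ x • Γ t (N x) = Γ t x := by
    intro t x hx
    rw [hχ1 x hx, one_smul, hR.fix x hx]
  refine ⟨_, hsm, fun t => ⟨hsm.comp (contDiff_const.prodMk contDiff_id), fun x hx => ?_, ?_⟩,
    fun x hx => ?_, fun x hx => ?_⟩
  · change χ x • Γ t (N x) ∈ K
    rw [hev t x hx]
    exact (h2 t).2 hx
  · obtain ⟨p, hp, hpf⟩ := Pool.Agent.L7h26.AA.s_EXT E E K U N (Γ t) hR (h2 t).1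
    refine ⟨p, hp, fun x hx => ?_⟩
    obtain ⟨y, hy, hyx⟩ := emb_surj pSURJ hR hK (h2 t).1 (h2 t).2 hx
    have e1 : p x = y := by rw [← hyx, hpf y hy]
    refine ⟨by rw [e1]; exact hy, ?_, ?_⟩
    · change p (χ x • Γ t (N x)) = x
      rw [hev t x hx, hpf x hx]
    · change χ (p x) • Γ t (N (p x)) = x
      rw [e1, hev t y hy, hyx]
  · change χ x • Γ 0 (N x) = f x
    rw [hev 0 x hx, h3 x hx]
  · change χ x • Γ 1 (N x) = g x
    rw [hev 1 x hx, h4 x hx]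

theorem NAff.mono {ε H H' r : ℝ} {φ : E → E} (h : NAff K ε H r φ) (hH : H ≤ H') :
    NAff K ε H' r φ := by
  intro x hx
  obtain ⟨l, T, b, hl, h1, h2, h3⟩ := h x hx
  refine ⟨l, T, b, hl, h1, fun v => (h2 v).trans ?_, h3⟩
  have : 0 ≤ l * ‖v‖ := by positivity
  nlinarith

/-- THE PATH THEOREM, for all closed connected smooth submanifolds -/
theorem general (hR : Ret K U N) (hK : IsPreconnected K) : ∃ ε : ℝ, 0 < ε ∧
    ∀ (H : ℝ) (f : ℝ × E → E) (F₀ F₁ : E → E), ContinuousOn f (Icc 0 1 ×ˢ K) →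
      (∀ s ∈ Icc (0 : ℝ) 1, ∀ x ∈ K, f (s, x) ∈ K) →
      (∀ r₀ : ℝ, 0 < r₀ → ∃ r : ℝ, 0 < r ∧ r < r₀ ∧
        ∀ s ∈ Icc (0 : ℝ) 1, NAff K ε H r fun x => f (s, x)) →
      IsDiff K F₀ → IsDiff K F₁ → (∀ x ∈ K, f (0, x) = F₀ x) → (∀ x ∈ K, f (1, x) = F₁ x) →
      SmIso K F₀ F₁ := by
  borelize E
  let μ : Measure E := Measure.addHaar
  obtain ⟨η, hη⟩ := Pool.Agent.L7h34.AA.s_KER E μ
  obtain ⟨Λ, hΛ2, hΛ⟩ := exists_lam hη
  obtain ⟨t₁, C, V, p1, p2, p3, p4, p5, p6, p7⟩ := Pool.Agent.L7h73.AA.s_PI E K U N hR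
  have hp : Pi0 K U N t₁ C V := ⟨p1, p2, p3, p4, p5, p6, p7⟩
  have hpos : 0 < (C + 1) * Λ := by positivity
  refine ⟨1 / (8 * ((C + 1) * Λ)), by positivity, ?_⟩
  intro H f F₀ F₁ hf hfK hA hF₀ hF₁ h0 h1
  have key := path_iso (μ := μ) (f := fun s x => f (s, x)) (ε := 1 / (8 * ((C + 1) * Λ)))
    (H := max H 1) Pool.Agent.L7h34.AA.s_LOW
    Pool.Agent.L7h34.AA.s_MOL Pool.Agent.L7h73.AA.s_CTS Pool.Agent.L7h69.PI.s_NU
    Pool.Agent.L7h69.PI.s_COMP pSURJ Pool.Agent.L7h65.PI.s_TRANS hR hK hp hη hΛ2 hΛ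
    (by positivity) (by rw [div_mul_eq_mul_div, one_mul, mul_comm 8, ← div_div, div_self hpos.ne'])
    (le_max_right _ _) hf hfK
    (fun r₀ hr₀ => by
      obtain ⟨r, hr, hr2, h3⟩ := hA r₀ hr₀
      exact ⟨r, hr, hr2, fun s hs => (h3 s hs).mono (le_max_left _ _)⟩)
    (emb_congr hR (hF₀.emb hR) h0) (emb_congr hR (hF₁.emb hR) h1)
  obtain ⟨M, m1, m2, m3, m4⟩ := smIso_of hR hK key
  exact ⟨M, m1, m2, fun x hx => (m3 x hx).trans (h0 x hx), fun x hx => (m4 x hx).trans (h1 x hx)⟩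

end gen

end Pool.Agent.L7h32.PI
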